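import Pool.Agent.T9h11.NF.Spec2
import Pool.Agent.T9h57.NF.Ex

/-!
# `DivProdK`
-/

set_option autoImplicit false

namespace Pool.Agent.T9h53.NF

open Finset NumberField
open Pool.Agent.T9h11.NF Pool.Agent.T9h57.QD

variable {K : Type} [Field K] [NumberField K]

theorem exk_eq (n : ℕ) (S : Finset (𝓞 K)) (p : 𝓞 K → ℝ) (f : (Fin n → 𝓞 K) → ℝ) :
    exk n S p f = Pool.Agent.T9h57.NF.exw n S p f := rfl

theorem exk_succ (n : ℕ) (S : Finset (𝓞 K)) (p : 𝓞 K → ℝ) (f : (Fin (n + 1) → 𝓞 K) → ℝ) :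
    exk (n + 1) S p f = ∑ a ∈ S, p a * exk n S p (fun x => f (Fin.cons a x)) :=
  Pool.Agent.T9h57.NF.exw_succ f

theorem ind_nn (P : Prop) : 0 ≤ ind P := by
  unfold ind
  split_ifs <;> norm_num

theorem ind_mono {P Q : Prop} (h : P → Q) : ind P ≤ ind Q := by
  unfold ind
  by_cases hP : P
  · rw [if_pos hP, if_pos (h hP)]
  · rw [if_neg hP]
    split_ifs <;> norm_num

theorem nm_pos {I : Ideal (𝓞 K)} (hI : I ≠ ⊥) : 0 < nm I := by
  unfold nm
  have : Ideal.absNorm I ≠ 0 := fun h => hI (Ideal.absNorm_eq_zero_iff.1 h)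
  exact_mod_cast Nat.pos_of_ne_zero this

theorem nm_mul' (I J : Ideal (𝓞 K)) : nm (I * J) = nm I * nm J := by
  unfold nm
  rw [map_mul]
  push_cast
  rfl

theorem fin_dvd {h : Ideal (𝓞 K)} (hh : h ≠ ⊥) : Finite {J : Ideal (𝓞 K) // J ∣ h} :=
  @Finite.of_fintype _ (UniqueFactorizationMonoid.fintypeSubtypeDvd h hh)

theorem nd_mono {g h : Ideal (𝓞 K)} (hh : h ≠ ⊥) (hg : g ∣ h) : nd g ≤ nd h := by
  unfold nd
  have := fin_dvd hh
  have h1 : Nat.card {J : Ideal (𝓞 K) // J ∣ g} ≤ Nat.card {J : Ideal (𝓞 K) // J ∣ h} :=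
    Nat.card_le_card_of_injective (fun J => (⟨J.1, J.2.trans hg⟩ : {J : Ideal (𝓞 K) // J ∣ h}))
      (fun a b hab => Subtype.ext (by simpa using hab))
  exact_mod_cast h1

/-- the cofactor of `a` in `h` -/
theorem exists_cof {h : Ideal (𝓞 K)} (hh : h ≠ ⊥) (a : 𝓞 K) : ∃ g h' : Ideal (𝓞 K), a ∈ g ∧ h = g * h' ∧
    ∀ y : 𝓞 K, a * y ∈ h → y ∈ h' := by
  have hdvd : (h ⊔ Ideal.span {a}) ∣ h := Ideal.dvd_iff_le.2 le_sup_left
  obtain ⟨h', hh'⟩ := hdvd
  refine ⟨h ⊔ Ideal.span {a}, h', ?_, hh', fun y hy => ?_⟩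
  · exact (le_sup_right : Ideal.span {a} ≤ h ⊔ Ideal.span {a}) (Ideal.mem_span_singleton_self a)
  · have hg0 : (h ⊔ Ideal.span {a}) ≠ ⊥ := by
      intro h0
      rw [h0, Ideal.bot_mul] at hh'
      exact hh hh'
    have h1 : (h ⊔ Ideal.span {a}) * Ideal.span {y} ≤ (h ⊔ Ideal.span {a}) * h' := by
      rw [← hh', Ideal.sup_mul]
      refine sup_le Ideal.mul_le_left ?_
      rw [Ideal.span_singleton_mul_span_singleton, Ideal.span_singleton_le_iff_mem]
      exact hy
    have h2 : (h ⊔ Ideal.span {a}) * h' ∣ (h ⊔ Ideal.span {a}) * Ideal.span {y} := Ideal.dvd_iff_le.2 h1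
    have h3 : h' ∣ Ideal.span {y} := (mul_dvd_mul_iff_left hg0).1 h2
    exact (Ideal.span_singleton_le_iff_mem _).1 (Ideal.dvd_iff_le.1 h3)

theorem divProd_aux (S : Finset (𝓞 K)) (p : 𝓞 K → ℝ) (B : ℝ) (hB : 0 ≤ B) (hp : ∀ x, 0 ≤ p x) (j : ℕ) :
    ∀ h : Ideal (𝓞 K), h ≠ ⊥ → (∀ g, g ∣ h → ∑ x ∈ S, p x * ind (x ∈ g) ≤ B / nm g) →
      exk j S p (fun x => ind (∏ i, x i ∈ h)) ≤ (nd h) ^ j * B ^ j / nm h := by
  induction j with
  | zero =>
    intro h hh _
    have h1 : exk 0 S p (fun x => ind (∏ i, x i ∈ h)) = ind ((1 : 𝓞 K) ∈ h) := by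
      unfold exk
      simp
    rw [h1, pow_zero, pow_zero, one_mul]
    unfold ind
    split_ifs with h2
    · have h3 : h = ⊤ := (Ideal.eq_top_iff_one h).2 h2
      rw [h3]
      unfold nm
      simp
    · exact div_nonneg zero_le_one (nm_pos hh).le
  | succ j ih =>
    intro h hh hg
    have := fin_dvd hh
    have : Fintype {J : Ideal (𝓞 K) // J ∣ h} := Fintype.ofFinite _
    have hnd : nd h = (Fintype.card {J : Ideal (𝓞 K) // J ∣ h} : ℝ) := by
      unfold nd
      rw [Nat.card_eq_fintype_card]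
    have hnh := nm_pos hh
    have hndn : 0 ≤ nd h := by unfold nd; positivity
    rw [exk_succ]
    have hterm : ∀ a : 𝓞 K, exk j S p (fun x => ind (∏ i, (Fin.cons a x : Fin (j + 1) → 𝓞 K) i ∈ h)) ≤
        (nd h ^ j * B ^ j / nm h) * ∑ g : {J : Ideal (𝓞 K) // J ∣ h}, nm g.1 * ind (a ∈ g.1) := by
      intro a
      obtain ⟨g, h', hag, hgh, hy⟩ := exists_cof hh a
      have hh' : h' ≠ ⊥ := by
        intro h0
        rw [h0, Ideal.mul_bot] at hgh
        exact hh hgh
      have hg0 : g ≠ ⊥ := by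
        intro h0
        rw [h0, Ideal.bot_mul] at hgh
        exact hh hgh
      have hd' : h' ∣ h := ⟨g, by rw [hgh, mul_comm]⟩
      have h1 := ih h' hh' (fun g' hg' => hg g' (hg'.trans hd'))
      have h2 : exk j S p (fun x => ind (∏ i, (Fin.cons a x : Fin (j + 1) → 𝓞 K) i ∈ h)) ≤
          exk j S p (fun x => ind (∏ i, x i ∈ h')) := by
        unfold exk
        refine Finset.sum_le_sum fun x _ => ?_
        refine mul_le_mul_of_nonneg_left (ind_mono fun h3 => ?_) (Finset.prod_nonneg fun i _ => hp _)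
        rw [Fin.prod_univ_succ] at h3
        simp only [Fin.cons_zero, Fin.cons_succ] at h3
        exact hy _ h3
      refine h2.trans (h1.trans ?_)
      have h3 : nd h' ^ j ≤ nd h ^ j :=
        pow_le_pow_left₀ (by unfold nd; positivity) (nd_mono hh hd') j
      have h4 : nm g ≤ ∑ g : {J : Ideal (𝓞 K) // J ∣ h}, nm g.1 * ind (a ∈ g.1) := by
        have h5 := Finset.single_le_sum (s := (Finset.univ : Finset {J : Ideal (𝓞 K) // J ∣ h}))
          (f := fun g => nm g.1 * ind (a ∈ g.1))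
          (fun g _ => mul_nonneg (by unfold nm; positivity) (ind_nn _))
          (Finset.mem_univ (⟨g, ⟨h', hgh⟩⟩ : {J : Ideal (𝓞 K) // J ∣ h}))
        have h6 : ind (a ∈ g) = 1 := by
          unfold ind
          rw [if_pos hag]
        simpa only [h6, mul_one] using h5
      have h7 := nm_pos hh'
      have h8 := nm_pos hg0
      calc nd h' ^ j * B ^ j / nm h' ≤ nd h ^ j * B ^ j / nm h' := by gcongr
        _ = (nd h ^ j * B ^ j / nm h) * nm g := by
          have h9 : nm h = nm g * nm h' := by rw [hgh, nm_mul']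
          rw [h9]
          field_simp
        _ ≤ _ := mul_le_mul_of_nonneg_left h4 (by positivity)
    calc ∑ a ∈ S, p a * exk j S p (fun x => ind (∏ i, (Fin.cons a x : Fin (j + 1) → 𝓞 K) i ∈ h)) ≤
          ∑ a ∈ S, p a * ((nd h ^ j * B ^ j / nm h) *
            ∑ g : {J : Ideal (𝓞 K) // J ∣ h}, nm g.1 * ind (a ∈ g.1)) :=
          Finset.sum_le_sum fun a _ => mul_le_mul_of_nonneg_left (hterm a) (hp a)
      _ = (nd h ^ j * B ^ j / nm h) * ∑ g : {J : Ideal (𝓞 K) // J ∣ h},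
            nm g.1 * ∑ a ∈ S, p a * ind (a ∈ g.1) := by
          simp only [Finset.mul_sum]
          rw [Finset.sum_comm]
          refine Finset.sum_congr rfl fun g _ => Finset.sum_congr rfl fun a _ => ?_
          ring
      _ ≤ (nd h ^ j * B ^ j / nm h) * ∑ g : {J : Ideal (𝓞 K) // J ∣ h}, B := by
          refine mul_le_mul_of_nonneg_left (Finset.sum_le_sum fun g _ => ?_) (by positivity)
          have hg0 : g.1 ≠ ⊥ := fun h0 => hh (by
            have := g.2
            rw [h0] at this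
            exact zero_dvd_iff.1 this)
          have h1 := hg g.1 g.2
          rw [le_div_iff₀ (nm_pos hg0)] at h1
          linarith
      _ = _ := by
          rw [Finset.sum_const, Finset.card_univ, nsmul_eq_mul, ← hnd]
          ring

variable (K) in
theorem divProdK : DivProdK K := fun S p h B j hh hB hp hg => divProd_aux S p B hB hp j h hh hg

end Pool.Agent.T9h53.NF
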