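import Pool.Agent.T9h11.NF.Spec2
import Pool.Agent.T9h91.NF.Geom3
import Pool.Agent.T9h57.NF.MulVol

/-!
# `RiemK`: Riemann sums over the integers of a number field
-/

set_option autoImplicit false

namespace Pool.Agent.T9h53.NF

open Finset NumberField NumberField.mixedEmbedding NumberField.InfinitePlace MeasureTheory
open Pool.Agent.T9h11.NF
open scoped Classical

variable {K : Type} [Field K] [NumberField K]

/-- the mixed space in `Sp K`. -/
noncomputable def io (z : mixedSpace K) : Sp K := fun v =>
  if h : v.IsReal then ((z.1 ⟨v, h⟩ : ℝ) : ℂ) else z.2 ⟨v, not_isReal_iff_isComplex.1 h⟩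

theorem io_real (z : mixedSpace K) {v : InfinitePlace K} (h : v.IsReal) : io z v = ((z.1 ⟨v, h⟩ : ℝ) : ℂ) := by
  unfold io
  rw [dif_pos h]

theorem io_cpx (z : mixedSpace K) {v : InfinitePlace K} (h : ¬ v.IsReal) :
    io z v = z.2 ⟨v, not_isReal_iff_isComplex.1 h⟩ := by
  unfold io
  rw [dif_neg h]

theorem io_emb (x : K) : io (mixedEmbedding K x) = E x := by
  funext v
  by_cases h : v.IsReal
  · rw [io_real _ h]
    exact embedding_of_isReal_apply h x
  · rw [io_cpx _ h]
    rfl

theorem io_mul (z w : mixedSpace K) : io (z * w) = io z * io w := by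
  funext v
  rw [Pi.mul_apply]
  by_cases h : v.IsReal
  · rw [io_real _ h, io_real _ h, io_real _ h, ← Complex.ofReal_mul]
    rfl
  · rw [io_cpx _ h, io_cpx _ h, io_cpx _ h]
    rfl

theorem io_sub (z w : mixedSpace K) : io (z - w) = io z - io w := by
  funext v
  rw [Pi.sub_apply]
  by_cases h : v.IsReal
  · rw [io_real _ h, io_real _ h, io_real _ h, ← Complex.ofReal_sub]
    rfl
  · rw [io_cpx _ h, io_cpx _ h, io_cpx _ h]
    rfl

theorem norm_io_apply (z : mixedSpace K) (v : InfinitePlace K) : ‖io z v‖ = normAtPlace v z := by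
  by_cases h : v.IsReal
  · rw [io_real _ h, normAtPlace_apply_of_isReal h, Complex.norm_real]
  · rw [io_cpx _ h, normAtPlace_apply_of_isComplex (not_isReal_iff_isComplex.1 h)]

theorem norm_io (z : mixedSpace K) : ‖io z‖ = ‖z‖ := by
  rw [norm_eq_sup'_normAtPlace]
  apply le_antisymm
  · rw [pi_norm_le_iff_of_nonneg]
    · intro v
      rw [norm_io_apply]
      exact Finset.le_sup' (fun w : InfinitePlace K => normAtPlace w z) (Finset.mem_univ v)
    · obtain ⟨v⟩ : Nonempty (InfinitePlace K) := inferInstance
      exact (normAtPlace_nonneg v z).trans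
        (Finset.le_sup' (fun w : InfinitePlace K => normAtPlace w z) (Finset.mem_univ v))
  · apply Finset.sup'_le
    intro v _
    rw [← norm_io_apply]
    exact norm_le_pi_norm (io z) v

theorem nrm_io (z : mixedSpace K) : nrm (io z) = mixedEmbedding.norm z := by
  rw [mixedEmbedding.norm_apply]
  unfold nrm
  refine Finset.prod_congr rfl fun v _ => ?_
  rw [norm_io_apply]

theorem exists_io {w : Sp K} (hw : RF w) : ∃ z : mixedSpace K, io z = w ∧ mixedEmbedding.norm z ≠ 0 := by
  refine ⟨(fun v => (w v.1).re, fun v => w v.1), ?_⟩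
  have h : io ((fun v => (w v.1).re, fun v => w v.1) : mixedSpace K) = w := by
    funext v
    by_cases h : v.IsReal
    · rw [io_real _ h]
      apply Complex.ext
      · simp
      · rw [Complex.ofReal_im]
        exact (hw.2 v h).symm
    · rw [io_cpx _ h]
  refine ⟨h, ?_⟩
  rw [← nrm_io, h]
  unfold nrm
  rw [Finset.prod_ne_zero_iff]
  intro v _
  exact pow_ne_zero _ (norm_ne_zero_iff.2 (hw.1 v))

theorem cont_of_lipF {L B : ℝ} {F : Sp K → ℝ} (h : LipF L B F) : Continuous (fun z => F (io z)) := by
  have : LipschitzWith (Real.toNNReal L) (fun z => F (io z)) := by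
    refine LipschitzWith.of_dist_le_mul fun z w => ?_
    rw [Real.dist_eq, dist_eq_norm]
    refine (h.1 _ _).trans ?_
    rw [← io_sub, norm_io]
    exact mul_le_mul_of_nonneg_right (Real.le_coe_toNNReal L) (norm_nonneg _)
  exact this.continuous

theorem cs_of_lipF {L B : ℝ} {F : Sp K → ℝ} (h : LipF L B F) : HasCompactSupport (fun z => F (io z)) := by
  apply HasCompactSupport.intro (isCompact_closedBall (0 : mixedSpace K) B)
  intro x hx
  by_contra h2
  apply hx
  rw [mem_closedBall_zero_iff, ← norm_io]
  exact h.2 _ h2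

theorem int_of_lipF {L B : ℝ} {F : Sp K → ℝ} (h : LipF L B F) :
    Integrable (fun z => F (io z)) (volume : Measure (mixedSpace K)) :=
  (cont_of_lipF h).integrable_of_hasCompactSupport (cs_of_lipF h)

variable (K) in
theorem riemK : RiemK K := by
  obtain ⟨C, hC, hR⟩ := Pool.Agent.T9h91.NF.exists_riemann K
  have hV := Pool.Agent.T9h91.NF.cov_pos (K := K)
  refine ⟨fun F => (∫ z : mixedSpace K, F (io z)) / Pool.Agent.T9h91.NF.cov K, C, hC, ?_, ?_, ?_, ?_, ?_⟩
  · intro F L B hL hB hF S hS
    have hD : (1 : ℝ) ≤ B + 1 := by linarith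
    have hD0 : (0 : ℝ) < B + 1 := by linarith
    have h := hR (fun z => F (io z)) (B + 1) (L * (B + 1) ^ (Pool.Agent.T9h91.NF.dg K + 1)) hD
      (by positivity) (fun z hz => by
        have := hF.2 _ hz
        rw [norm_io] at this
        linarith) (fun z w => by
        have h1 := hF.1 (io z) (io w)
        rw [← io_sub, norm_io] at h1
        refine h1.trans (le_of_eq ?_)
        field_simp)
    have e : ∑' x : 𝓞 K, F (io (Pool.Agent.T9h91.NF.em x)) = ∑ x ∈ S, F (E (x : K)) := by
      have h1 : ∀ x : 𝓞 K, io (Pool.Agent.T9h91.NF.em x) = E (x : K) := fun x => io_emb _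
      simp only [h1]
      refine tsum_eq_sum fun x hx => ?_
      by_contra h2
      exact hx (hS x h2)
    rw [e] at h
    refine h.trans (le_of_eq ?_)
    rw [pow_succ]
    field_simp
  · intro F L B hF w hw
    obtain ⟨z, hz, hz0⟩ := exists_io hw
    have h := Pool.Agent.T9h57.NF.integral_mul_volume hz0 (fun x => F (io x))
    simp only
    rw [← hz, nrm_io]
    simp only [io_mul] at h
    rw [h]
    field_simp
  · intro F G L B hF hG a b
    simp only
    rw [integral_add ((int_of_lipF hF).const_mul a) ((int_of_lipF hG).const_mul b), integral_const_mul,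
      integral_const_mul]
    ring
  · intro F L B hF h0
    exact div_nonneg (integral_nonneg fun z => h0 _) hV.le
  · rintro F L B hF h0 ⟨w, hw, hFw⟩
    obtain ⟨z, hz, hz0⟩ := exists_io hw
    refine div_pos ?_ hV
    exact (cont_of_lipF hF).integral_pos_of_hasCompactSupport_nonneg_nonzero (cs_of_lipF hF)
      (fun z => h0 _) (x := z) (by simpa only [hz] using hFw)

end Pool.Agent.T9h53.NF
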